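import Pool.Agent.Helper42.PQ.Spec

set_option autoImplicit false
set_option linter.unusedVariables false

/-!
Part E33 of swarm PQ: the finite check for three classes.
-/

namespace Pool.Agent.Helper16.PQ.E33

open Pool.Agent.Helper42.PQ Finset

/-- the finite check (Boolean form): `true` means that the pattern is excluded -/
def chk (N B a b c d e f g h k : ℕ) : Bool :=
  !((c != 0) && (c != N - 1) && (f != 0) && (f != N - 1) && (g != 0) && (g != N - 1) &&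
    (h != 0) && (h != N - 1) && (k != 0) && (k != N - 1) &&
    (a + b != N - 1) && (a + c != N - 1) && (a + d != N - 1) && (a + e != N - 1) &&
    (a + f != N - 1) && (a + g != N - 1) && (a + h != N - 1) && (a + k != N - 1) &&
    (b + c != N - 1) && (b + d != N - 1) && (b + e != N - 1) &&
    (b + f != N - 1) && (b + g != N - 1) && (b + h != N - 1) && (b + k != N - 1) &&
    (c + d != N - 1) && (c + e != N - 1) &&
    (c + f != N - 1) && (c + g != N - 1) && (c + h != N - 1) && (c + k != N - 1) &&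
    (d + e != N - 1) && (d + f != N - 1) && (d + g != N - 1) && (d + h != N - 1) &&
    (d + k != N - 1) &&
    (e + f != N - 1) && (e + g != N - 1) && (e + h != N - 1) && (e + k != N - 1) &&
    (f + g != N - 1) && (f + h != N - 1) && (f + k != N - 1) &&
    (g + h != N - 1) && (g + k != N - 1) && (h + k != N - 1) &&
    (a != e) && (a != f) && (a != h) && (a != k) &&
    (b != d) && (b != f) && (b != g) && (b != k) &&
    (c != d) && (c != e) && (c != g) && (c != h) &&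
    (d != h) && (d != k) && (e != g) && (e != k) && (f != g) && (f != h) &&
    (Nat.ble (a + b + c + d + e + f + g + h + k) B))

def chk' (N B a b d e : ℕ) : Bool :=
  chk N B a b ((2 * N - 1 - a - b) % N) d e ((2 * N - 1 - d - e) % N)
    ((2 * N - 1 - a - d) % N) ((2 * N - 1 - b - e) % N) ((a + b + d + e + 1) % N)

theorem chk11 : ∀ a < 9, ∀ b < 9, ∀ d < 9, ∀ e < 9,
    chk' 11 52 (a + 1) (b + 1) (d + 1) (e + 1) = true := by
  decide +kernel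

theorem chk12 : ∀ a < 10, ∀ b < 10, ∀ d < 10, ∀ e < 10,
    chk' 12 33 (a + 1) (b + 1) (d + 1) (e + 1) = true := by
  decide +kernel

/-- consequences for rows of the absence of coincidences -/
lemma facts (N : ℕ) (M : Fin 3 → Fin 3 → ℕ) (hN : 2 ≤ N)
    (hr : ∀ i, N ∣ (∑ j, M i j) + 1)
    (hno : ∀ i i', i ≠ i' → ∀ S T : Finset (Fin 3), S ≠ T →
      ¬ (∑ j ∈ S, M i j) ≡ (∑ j ∈ T, M i' j) [MOD N]) :
    (∀ i j, M i j ≠ N - 1) ∧
    (∀ i i', i ≠ i' → ∀ j j', M i j + M i' j' ≠ N - 1) ∧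
    (∀ i i', i ≠ i' → ∀ j j', j ≠ j' → M i j ≠ M i' j') := by
  refine ⟨?_, ?_, ?_⟩
  · intro i j h
    obtain ⟨i', hi'⟩ : ∃ i' : Fin 3, i ≠ i' :=
      (by decide : ∀ i : Fin 3, ∃ i' : Fin 3, i ≠ i') i
    apply hno i i' hi' {j} univ
    · intro hc
      have := congrArg Finset.card hc
      simp at this
    · rw [Finset.sum_singleton]
      apply Nat.ModEq.add_right_cancel' 1
      have h1 : N ∣ M i j + 1 := by
        rw [h, show N - 1 + 1 = N by omega]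
      exact (Nat.modEq_zero_iff_dvd.2 h1).trans (Nat.modEq_zero_iff_dvd.2 (hr i')).symm
  · intro i i' hi j j' h
    apply hno i i' hi {j} (univ.erase j')
    · intro hc
      have := congrArg Finset.card hc
      rw [Finset.card_singleton, Finset.card_erase_of_mem (Finset.mem_univ _)] at this
      simp at this
    · rw [Finset.sum_singleton]
      apply Nat.ModEq.add_right_cancel' (M i' j' + 1)
      have h1 : N ∣ M i j + (M i' j' + 1) := by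
        rw [← add_assoc, h, show N - 1 + 1 = N by omega]
      have h2 : N ∣ (∑ x ∈ univ.erase j', M i' x) + (M i' j' + 1) := by
        rw [← add_assoc, Finset.sum_erase_add _ _ (Finset.mem_univ j')]
        exact hr i'
      exact (Nat.modEq_zero_iff_dvd.2 h1).trans (Nat.modEq_zero_iff_dvd.2 h2).symm
  · intro i i' hi j j' hj h
    apply hno i i' hi {j} {j'}
    · intro hc
      exact hj (Finset.singleton_injective hc)
    · rw [Finset.sum_singleton, Finset.sum_singleton, h]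

lemma fin_rep (N B : ℕ) (M : Fin 3 → Fin 3 → ℕ) (hN : 2 ≤ N)
    (hM : ∀ i j, 1 ≤ M i j ∧ M i j < N)
    (hr : ∀ i, N ∣ (∑ j, M i j) + 1) (hc : ∀ j, N ∣ (∑ i, M i j) + 1)
    (hB : (∑ i, ∑ j, M i j) ≤ B)
    (hno : ∀ i i', i ≠ i' → ∀ S T : Finset (Fin 3), S ≠ T →
      ¬ (∑ j ∈ S, M i j) ≡ (∑ j ∈ T, M i' j) [MOD N])
    (hno' : ∀ j j', j ≠ j' → ∀ S T : Finset (Fin 3), S ≠ T →
      ¬ (∑ i ∈ S, M i j) ≡ (∑ i ∈ T, M i j') [MOD N]) :
    chk N B (M 0 0) (M 0 1) (M 0 2) (M 1 0) (M 1 1) (M 1 2) (M 2 0) (M 2 1) (M 2 2) = false := by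
  obtain ⟨f1, f2, f3⟩ := facts N M hN hr hno
  obtain ⟨g1, g2, g3⟩ := facts N (fun j i => M i j) hN hc hno'
  have z : ∀ i j, M i j ≠ 0 := fun i j => by have := (hM i j).1; omega
  have hB' : M 0 0 + M 0 1 + M 0 2 + M 1 0 + M 1 1 + M 1 2 + M 2 0 + M 2 1 + M 2 2 ≤ B := by
    rw [Fin.sum_univ_three, Fin.sum_univ_three, Fin.sum_univ_three, Fin.sum_univ_three] at hB
    omega
  unfold chk
  rw [Bool.not_eq_false']
  simp only [Bool.and_eq_true, bne_iff_ne, ne_eq]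
  refine ⟨?_, Nat.ble_eq_true_of_le hB'⟩
  refine ⟨⟨⟨⟨⟨⟨⟨⟨⟨⟨⟨⟨⟨⟨⟨⟨⟨⟨⟨⟨⟨⟨⟨⟨⟨⟨⟨⟨⟨⟨⟨⟨⟨⟨⟨⟨⟨⟨⟨⟨⟨⟨⟨⟨⟨⟨⟨⟨⟨⟨⟨⟨⟨⟨⟨⟨⟨⟨⟨⟨⟨⟨⟨?_, ?_⟩, ?_⟩, ?_⟩, ?_⟩, ?_⟩, ?_⟩, ?_⟩, ?_⟩, ?_⟩, ?_⟩, ?_⟩, ?_⟩, ?_⟩, ?_⟩, ?_⟩, ?_⟩, ?_⟩, ?_⟩, ?_⟩, ?_⟩, ?_⟩, ?_⟩, ?_⟩, ?_⟩, ?_⟩, ?_⟩, ?_⟩, ?_⟩, ?_⟩, ?_⟩, ?_⟩, ?_⟩, ?_⟩, ?_⟩, ?_⟩, ?_⟩, ?_⟩, ?_⟩, ?_⟩, ?_⟩, ?_⟩, ?_⟩, ?_⟩, ?_⟩, ?_⟩, ?_⟩, ?_⟩, ?_⟩, ?_⟩, ?_⟩, ?_⟩, ?_⟩, ?_⟩, ?_⟩, ?_⟩, ?_⟩, ?_⟩, ?_⟩, ?_⟩, ?_⟩, ?_⟩, ?_⟩, ?_⟩ <;>
  first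
  | exact z _ _
  | exact f1 _ _
  | exact f2 _ _ (by decide) _ _
  | exact g2 _ _ (by decide) _ _
  | exact f3 _ _ (by decide) _ _ (by decide)

lemma rep11 {a b c : ℕ} (h : 11 ∣ a + b + c + 1) (ha : 1 ≤ a ∧ a < 11) (hb : 1 ≤ b ∧ b < 11)
    (hc : 1 ≤ c ∧ c < 11) : (2 * 11 - 1 - a - b) % 11 = c := by omega

lemma rep12 {a b c : ℕ} (h : 12 ∣ a + b + c + 1) (ha : 1 ≤ a ∧ a < 12) (hb : 1 ≤ b ∧ b < 12)
    (hc : 1 ≤ c ∧ c < 12) : (2 * 12 - 1 - a - b) % 12 = c := by omega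

lemma rep11' {a b c d e f g h k : ℕ} (h1 : 11 ∣ a + b + c + 1) (h2 : 11 ∣ d + e + f + 1)
    (h3 : 11 ∣ g + h + k + 1) (h4 : 11 ∣ a + d + g + 1) (h5 : 11 ∣ b + e + h + 1)
    (hk : 1 ≤ k ∧ k < 11) : (a + b + d + e + 1) % 11 = k := by
  obtain ⟨t3, h3⟩ := h3
  obtain ⟨t4, h4⟩ := h4
  obtain ⟨t5, h5⟩ := h5
  clear h1 h2
  have e1 : a + b + d + e + 1 + 11 * t3 = k + 11 * (t4 + t5) := by
    rw [← h3, mul_add, ← h4, ← h5]
    ring
  have e2 : (a + b + d + e + 1) % 11 = k % 11 := by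
    have := congrArg (fun z => z % 11) e1
    simpa [Nat.add_mul_mod_self_left] using this
  rw [e2, Nat.mod_eq_of_lt hk.2]

lemma rep12' {a b c d e f g h k : ℕ} (h1 : 12 ∣ a + b + c + 1) (h2 : 12 ∣ d + e + f + 1)
    (h3 : 12 ∣ g + h + k + 1) (h4 : 12 ∣ a + d + g + 1) (h5 : 12 ∣ b + e + h + 1)
    (hk : 1 ≤ k ∧ k < 12) : (a + b + d + e + 1) % 12 = k := by
  obtain ⟨t3, h3⟩ := h3
  obtain ⟨t4, h4⟩ := h4
  obtain ⟨t5, h5⟩ := h5
  clear h1 h2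
  have e1 : a + b + d + e + 1 + 12 * t3 = k + 12 * (t4 + t5) := by
    rw [← h3, mul_add, ← h4, ← h5]
    ring
  have e2 : (a + b + d + e + 1) % 12 = k % 12 := by
    have := congrArg (fun z => z % 12) e1
    simpa [Nat.add_mul_mod_self_left] using this
  rw [e2, Nat.mod_eq_of_lt hk.2]

lemma sub_one_add {a N : ℕ} (h : 1 ≤ a ∧ a < N) : a - 1 + 1 = a := by omega

theorem main : S_E33 := by
  intro N K hNK M hM hr hc hB
  by_contra hcon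
  push Not at hcon
  obtain ⟨h1, h2⟩ := hcon
  have hno : ∀ i i', i ≠ i' → ∀ S T : Finset (Fin 3), S ≠ T →
      ¬ (∑ j ∈ S, M i j) ≡ (∑ j ∈ T, M i' j) [MOD N] := fun i i' hi S T hS => h1 i i' hi S T hS
  have hno' : ∀ j j', j ≠ j' → ∀ S T : Finset (Fin 3), S ≠ T →
      ¬ (∑ i ∈ S, M i j) ≡ (∑ i ∈ T, M i j') [MOD N] := fun j j' hj S T hS => h2 j j' hj S T hS
  have r0 := hr 0
  have r1 := hr 1
  have r2 := hr 2
  have c0 := hc 0
  have c1 := hc 1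
  rw [Fin.sum_univ_three] at r0 r1 r2 c0 c1
  rcases hNK with ⟨rfl, rfl⟩ | ⟨rfl, rfl⟩
  · have fz := (facts 11 M (by norm_num) hr hno).1
    have key := fin_rep 11 52 M (by norm_num) hM hr hc (Nat.le_of_add_le_add_right hB) hno hno'
    have e := chk11 (M 0 0 - 1) (by have := hM 0 0; have := fz 0 0; omega) (M 0 1 - 1) (by have := hM 0 1; have := fz 0 1; omega)
      (M 1 0 - 1) (by have := hM 1 0; have := fz 1 0; omega) (M 1 1 - 1) (by have := hM 1 1; have := fz 1 1; omega)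
    unfold chk' at e
    rw [sub_one_add (hM 0 0), sub_one_add (hM 0 1), sub_one_add (hM 1 0), sub_one_add (hM 1 1),
      rep11 r0 (hM 0 0) (hM 0 1) (hM 0 2), rep11 r1 (hM 1 0) (hM 1 1) (hM 1 2),
      rep11 c0 (hM 0 0) (hM 1 0) (hM 2 0), rep11 c1 (hM 0 1) (hM 1 1) (hM 2 1),
      rep11' r0 r1 r2 c0 c1 (hM 2 2), key] at e
    exact Bool.false_ne_true e
  · have fz := (facts 12 M (by norm_num) hr hno).1
    have key := fin_rep 12 33 M (by norm_num) hM hr hc (Nat.le_of_add_le_add_right hB) hno hno'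
    have e := chk12 (M 0 0 - 1) (by have := hM 0 0; have := fz 0 0; omega) (M 0 1 - 1) (by have := hM 0 1; have := fz 0 1; omega)
      (M 1 0 - 1) (by have := hM 1 0; have := fz 1 0; omega) (M 1 1 - 1) (by have := hM 1 1; have := fz 1 1; omega)
    unfold chk' at e
    rw [sub_one_add (hM 0 0), sub_one_add (hM 0 1), sub_one_add (hM 1 0), sub_one_add (hM 1 1),
      rep12 r0 (hM 0 0) (hM 0 1) (hM 0 2), rep12 r1 (hM 1 0) (hM 1 1) (hM 1 2),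
      rep12 c0 (hM 0 0) (hM 1 0) (hM 2 0), rep12 c1 (hM 0 1) (hM 1 1) (hM 2 1),
      rep12' r0 r1 r2 c0 c1 (hM 2 2), key] at e
    exact Bool.false_ne_true e

end Pool.Agent.Helper16.PQ.E33
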