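import Pool.Agent.Helper42.PQ.Spec

set_option autoImplicit false
set_option linter.unusedSectionVars false

/-!
Part M9 of swarm PQ: three classes, no minimal counterexample.
-/

namespace Pool.Agent.Helper16.PQ.M9

open Pool.Agent.Helper42.PQ Finset

section
variable {α β : Type} [Fintype α] [DecidableEq α] [Fintype β] [DecidableEq β]

lemma filt (ρ κ : α → β) (c : β → β → α) (hρ : ∀ a b, ρ (c a b) = a)
    (huniq : ∀ v, v = c (ρ v) (κ v)) (hκ : ∀ a b, κ (c a b) = b) (e : Fin 3 ≃ β) (a : β) :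
    (Finset.univ.filter (fun v => ρ v = a)).val =
      (Finset.univ : Finset (Fin 3)).val.map (fun j => c a (e j)) := by
  have hinj : Function.Injective (fun j : Fin 3 => c a (e j)) := by
    intro j j' h
    apply e.injective
    have := congrArg κ h
    simpa [hκ] using this
  have h1 : Finset.univ.filter (fun v => ρ v = a) =
      (Finset.univ : Finset (Fin 3)).map ⟨fun j => c a (e j), hinj⟩ := by
    ext v
    simp only [Finset.mem_filter, Finset.mem_univ, true_and, Finset.mem_map,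
      Function.Embedding.coeFn_mk]
    constructor
    · intro hv
      refine ⟨e.symm (κ v), ?_⟩
      rw [Equiv.apply_symm_apply, ← hv]
      exact (huniq v).symm
    · rintro ⟨j, rfl⟩
      exact hρ _ _
  rw [h1, Finset.map_val]
  rfl

lemma ty_eq (N : ℕ) (x : α → ℕ) (ρ κ : α → β) (c : β → β → α) (hρ : ∀ a b, ρ (c a b) = a)
    (huniq : ∀ v, v = c (ρ v) (κ v)) (hκ : ∀ a b, κ (c a b) = b) (e : Fin 3 ≃ β) (a : β) :
    ty N x ρ a = (Finset.univ : Finset (Fin 3)).val.map (fun j => x (c a (e j)) % N) := by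
  unfold ty
  rw [filt ρ κ c hρ huniq hκ e a, Multiset.map_map]
  rfl

lemma le_erase {f : Fin 3 → ℕ} {A : Finset (Fin 3)} {j0 : Fin 3} (h : j0 ∉ A) :
    A.val.map f ≤ ((Finset.univ : Finset (Fin 3)).val.map f).erase (f j0) := by
  rw [← Multiset.map_erase_of_mem f _ (show j0 ∈ (Finset.univ : Finset (Fin 3)).val from
    Finset.mem_univ j0), ← Finset.erase_val]
  apply Multiset.map_le_map
  rw [Finset.val_le_iff]
  intro j hj
  exact Finset.mem_erase.2 ⟨fun hc => h (hc ▸ hj), Finset.mem_univ _⟩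

lemma rowcase (N : ℕ) (x : α → ℕ) (ρ κ : α → β) (c : β → β → α) (hρ : ∀ a b, ρ (c a b) = a)
    (huniq : ∀ v, v = c (ρ v) (κ v)) (hκ : ∀ a b, κ (c a b) = b) (e : Fin 3 ≃ β)
    (h7 : ∀ v w, v ≠ w → κ v = κ w →
      cmpt N (x v % N) (ty N x ρ (ρ v)) (x w % N) (ty N x ρ (ρ w)))
    (i i' : Fin 3) (hi : i ≠ i') (S T : Finset (Fin 3)) (hST : S ≠ T)
    (h : (∑ j ∈ S, x (c (e i) (e j)) % N) ≡ (∑ j ∈ T, x (c (e i') (e j)) % N) [MOD N]) :
    False := by
  have hne : ∀ j0, c (e i) (e j0) ≠ c (e i') (e j0) := by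
    intro j0 hc
    have := congrArg ρ hc
    rw [hρ, hρ] at this
    exact hi (e.injective this)
  have key : ∀ j0, cmpt N (x (c (e i) (e j0)) % N)
      ((Finset.univ : Finset (Fin 3)).val.map (fun j => x (c (e i) (e j)) % N))
      (x (c (e i') (e j0)) % N)
      ((Finset.univ : Finset (Fin 3)).val.map (fun j => x (c (e i') (e j)) % N)) := by
    intro j0
    have := h7 (c (e i) (e j0)) (c (e i') (e j0)) (hne j0) (by rw [hκ, hκ])
    rwa [hρ, hρ, ty_eq N x ρ κ c hρ huniq hκ e, ty_eq N x ρ κ c hρ huniq hκ e] at this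
  have hcase : (∃ j0, j0 ∈ S ∧ j0 ∉ T) ∨ (∃ j0, j0 ∈ T ∧ j0 ∉ S) := by
    by_contra hcon
    push Not at hcon
    exact hST (Finset.Subset.antisymm hcon.1 hcon.2)
  rcases hcase with ⟨j0, h1, h2⟩ | ⟨j0, h1, h2⟩
  · have := (key j0 ((S.erase j0).val.map (fun j => x (c (e i) (e j)) % N))
      (le_erase (f := fun j => x (c (e i) (e j)) % N) (Finset.notMem_erase j0 S))
      (T.val.map (fun j => x (c (e i') (e j)) % N))
      (le_erase (f := fun j => x (c (e i') (e j)) % N) h2)).1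
    apply this
    have e1 : x (c (e i) (e j0)) % N +
        ((S.erase j0).val.map (fun j => x (c (e i) (e j)) % N)).sum =
        ∑ j ∈ S, x (c (e i) (e j)) % N :=
      Finset.add_sum_erase S (fun j => x (c (e i) (e j)) % N) h1
    rw [e1]
    exact h
  · have := (key j0 (S.val.map (fun j => x (c (e i) (e j)) % N))
      (le_erase (f := fun j => x (c (e i) (e j)) % N) h2)
      ((T.erase j0).val.map (fun j => x (c (e i') (e j)) % N))
      (le_erase (f := fun j => x (c (e i') (e j)) % N) (Finset.notMem_erase j0 T))).2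
    apply this
    have e1 : x (c (e i') (e j0)) % N +
        ((T.erase j0).val.map (fun j => x (c (e i') (e j)) % N)).sum =
        ∑ j ∈ T, x (c (e i') (e j)) % N :=
      Finset.add_sum_erase T (fun j => x (c (e i') (e j)) % N) h1
    rw [e1]
    exact h

lemma classSum (x : α → ℕ) (ρ κ : α → β) (c : β → β → α) (hρ : ∀ a b, ρ (c a b) = a)
    (huniq : ∀ v, v = c (ρ v) (κ v)) (hκ : ∀ a b, κ (c a b) = b) (e : Fin 3 ≃ β) (a : β) :
    ∑ v ∈ Finset.univ.filter (fun v => ρ v = a), x v = ∑ j, x (c a (e j)) := by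
  have h1 : ∑ v ∈ Finset.univ.filter (fun v => ρ v = a), x v =
      ((Finset.univ.filter (fun v => ρ v = a)).val.map x).sum := rfl
  rw [h1, filt ρ κ c hρ huniq hκ e a, Multiset.map_map]
  rfl

lemma dvd_mod (N : ℕ) (f : Fin 3 → ℕ) (h : N ∣ (∑ j, f j) + 1) :
    N ∣ (∑ j, f j % N) + 1 := by
  have h1 : (∑ j, f j % N) ≡ (∑ j, f j) [MOD N] := (Finset.sum_nat_mod _ _ _).symm
  exact Nat.modEq_zero_iff_dvd.1 ((h1.add_right 1).trans (Nat.modEq_zero_iff_dvd.2 h))

end

theorem main (h5 : S_M5) (h7 : S_M7) (h33 : S_E33) : S_M9 := by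
  intro N K hNK α β _ _ _ _ x R hR hβ hB ρ κ hρκ
  have hN : 2 ≤ N := by rcases hNK with ⟨rfl, _⟩ | ⟨rfl, _⟩ <;> norm_num
  obtain ⟨hz, h2, hort⟩ := hR
  have hR' : OrtF N x R := ⟨hz, h2, hort⟩
  obtain ⟨hdρ, hdκ, horth, -, hsym, -⟩ := hort ρ κ hρκ
  have hcell : ∀ a b, ∃ v, ρ v = a ∧ κ v = b := by
    intro a b
    have hcard := (h5 N α β x R hN hR' ρ κ hρκ a).2
    have hinj : Set.InjOn κ (Finset.univ.filter (fun v => ρ v = a) : Finset α) := by
      intro v hv w hw hvw
      by_contra hne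
      have hv' : ρ v = a := by simpa using hv
      have hw' : ρ w = a := by simpa using hw
      exact horth v w hne (hv'.trans hw'.symm) hvw
    have himg : (Finset.univ.filter (fun v => ρ v = a)).image κ = Finset.univ := by
      apply Finset.eq_univ_of_card
      apply le_antisymm (Finset.card_le_univ _)
      rw [Finset.card_image_of_injOn hinj, hβ]
      exact hcard
    have hb : b ∈ (Finset.univ.filter (fun v => ρ v = a)).image κ := by
      rw [himg]; exact Finset.mem_univ _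
    obtain ⟨v, hv, hvb⟩ := Finset.mem_image.1 hb
    exact ⟨v, (Finset.mem_filter.1 hv).2, hvb⟩
  choose c hcρ hcκ using hcell
  have huniq : ∀ v, v = c (ρ v) (κ v) := by
    intro v
    by_contra hne
    exact horth v (c (ρ v) (κ v)) hne (hcρ _ _).symm (hcκ _ _).symm
  let e : Fin 3 ≃ β := (Fintype.equivFinOfCardEq hβ).symm
  have hrow : ∀ a, ∑ v ∈ Finset.univ.filter (fun v => ρ v = a), x v = ∑ j, x (c a (e j)) :=
    fun a => classSum x ρ κ c hcρ huniq hcκ e a
  have hcol : ∀ b, ∑ v ∈ Finset.univ.filter (fun v => κ v = b), x v = ∑ i, x (c (e i) b) :=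
    fun b => classSum x κ ρ (fun b a => c a b) (fun b a => hcκ a b) huniq
      (fun b a => hcρ a b) e b
  have htot : ∑ v, x v = ∑ i, ∑ j, x (c (e i) (e j)) := by
    rw [← Finset.sum_fiberwise (Finset.univ) ρ x, ← Equiv.sum_comp e]
    exact Finset.sum_congr rfl (fun i _ => hrow (e i))
  have A1 : ∀ i j, 1 ≤ x (c (e i) (e j)) % N ∧ x (c (e i) (e j)) % N < N := by
    intro i j
    refine ⟨?_, Nat.mod_lt _ (by omega)⟩
    have := hz (c (e i) (e j))
    rw [Nat.one_le_iff_ne_zero]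
    intro h0
    exact this (Nat.dvd_of_mod_eq_zero h0)
  have A2 : ∀ i, N ∣ (∑ j, x (c (e i) (e j)) % N) + 1 := by
    intro i
    apply dvd_mod
    rw [← hrow]
    exact hdρ (e i)
  have A3 : ∀ j, N ∣ (∑ i, x (c (e i) (e j)) % N) + 1 := by
    intro j
    apply dvd_mod N (fun i => x (c (e i) (e j)))
    rw [← hcol]
    exact hdκ (e j)
  have A4 : (∑ i, ∑ j, x (c (e i) (e j)) % N) + 3 ≤ N * K := by
    have : ∑ i, ∑ j, x (c (e i) (e j)) % N ≤ ∑ i, ∑ j, x (c (e i) (e j)) :=
      Finset.sum_le_sum (fun i _ => Finset.sum_le_sum (fun j _ => Nat.mod_le _ _))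
    rw [← htot] at this
    exact le_trans (Nat.add_le_add_right this 3) hB
  rcases h33 N K hNK (fun i j => x (c (e i) (e j)) % N) A1 A2 A3 A4 with
    ⟨i, i', hi, S, T, hST, h⟩ | ⟨j, j', hj, S, T, hST, h⟩
  · exact rowcase N x ρ κ c hcρ huniq hcκ e (fun v w => h7 N α β x R hN hR' ρ κ hρκ v w)
      i i' hi S T hST h
  · exact rowcase N x κ ρ (fun b a => c a b) (fun b a => hcκ a b) huniq
      (fun b a => hcρ a b) e (fun v w => h7 N α β x R hN hR' κ ρ hsym v w)
      j j' hj S T hST h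

end Pool.Agent.Helper16.PQ.M9
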